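import Mathlib

/-!
# H2P9: second copy of the inequality (L5) of H2P (MP_280848, parallel lines)
-/

open Finset

namespace H2P9

/-- The lines of `S` give at most `2 A`. -/
theorem two_A {h0 H μ ν A : ℝ} (h0n : 0 ≤ h0) (hA : 0 ≤ A) (hμ : 0 < μ) (hμν : μ ≤ ν) (hc : h0 * μ + H * ν ≤ 2 * A)
    (he : h0 * ν ≤ A) : h0 * ν + H * μ ≤ 2 * A := by
  have hν : 0 < ν := lt_of_lt_of_le hμ hμν
  have e1 : (h0 * ν + H * μ) * ν ≤ h0 * (ν ^ 2 - μ ^ 2) + 2 * A * μ := by nlinarith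
  have e2 : (h0 * ν) * (ν ^ 2 - μ ^ 2) ≤ A * (ν ^ 2 - μ ^ 2) :=
    mul_le_mul_of_nonneg_right he (by nlinarith)
  have e3 : (h0 * ν + H * μ) * ν ^ 2 ≤ A * (ν ^ 2 - μ ^ 2) + 2 * A * μ * ν := by
    have := mul_le_mul_of_nonneg_right e1 hν.le
    nlinarith
  have e4 : A * (ν ^ 2 - μ ^ 2) + 2 * A * μ * ν ≤ 2 * A * ν ^ 2 := by
    nlinarith [mul_nonneg hA (sq_nonneg (ν - μ))]
  exact le_of_mul_le_mul_right (e3.trans e4) (by positivity)

/-- Three lines: at most `3 A / 2`. -/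
theorem three {h0 h1 h2 μ ν A : ℝ} (h0n : 0 ≤ h0) (hA : 0 ≤ A) (hμ : 0 < μ) (hμν : μ ≤ ν)
    (hc : h0 * μ + h1 * ν + h2 * (μ + ν) ≤ 2 * A) (he0 : h0 * (μ + ν) ≤ A) (he1 : h1 * (μ + ν) ≤ A) :
    h0 * ν + h1 * μ + h2 * μ ≤ 3 / 2 * A := by
  have hν : 0 < ν := lt_of_lt_of_le hμ hμν
  have hσ : 0 < μ + ν := by positivity
  have e1 : (h0 * ν + h1 * μ + h2 * μ) * (μ + ν) ≤ 2 * A * μ + h0 * (ν * (μ + ν) - μ ^ 2) + h1 * μ ^ 2 := by
    nlinarith [mul_le_mul_of_nonneg_right hc hμ.le]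
  have e2 : h0 * (μ + ν) * (ν * (μ + ν) - μ ^ 2) ≤ A * (ν * (μ + ν) - μ ^ 2) :=
    mul_le_mul_of_nonneg_right he0 (by nlinarith)
  have e3 : h1 * (μ + ν) * μ ^ 2 ≤ A * μ ^ 2 := mul_le_mul_of_nonneg_right he1 (by positivity)
  have e4 : (h0 * ν + h1 * μ + h2 * μ) * (μ + ν) ^ 2 ≤ 2 * A * μ * (μ + ν) + A * (ν * (μ + ν)) := by
    have := mul_le_mul_of_nonneg_right e1 hσ.le
    nlinarith
  have e5 : 2 * A * μ * (μ + ν) + A * (ν * (μ + ν)) ≤ 3 / 2 * A * (μ + ν) ^ 2 := by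
    have : 0 ≤ A * (μ + ν) * (ν - μ) := by
      have := sub_nonneg.2 hμν
      positivity
    nlinarith
  exact le_of_mul_le_mul_right (e4.trans e5) (by positivity)

theorem abs_aux {x y : ℝ} (h : |x| ≤ |y|) (hx : 0 < |x|) (h' : |y| ≤ |x + y|) : |x + y| = |x| + |y| := by
  rcases abs_cases x with ⟨e0, f0⟩ | ⟨e0, f0⟩ <;> rcases abs_cases y with ⟨e1, f1⟩ | ⟨e1, f1⟩ <;>
    rcases abs_cases (x + y) with ⟨e2, f2⟩ | ⟨e2, f2⟩ <;> linarith

theorem ineq (d : ℕ) (hd : 3 ≤ d) (C h N : Fin (d + 1) → ℝ) (a A : ℝ) (ha : 0 < a) (hN : ∀ l, 0 ≤ N l)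
    (hh : ∀ l, 0 ≤ h l) (hsum : ∑ l, C l = 0)
    (h3 : ∃ i j k, i ≠ j ∧ i ≠ k ∧ j ≠ k ∧ C i ≠ 0 ∧ C j ≠ 0 ∧ C k ≠ 0)
    (h1 : ∀ l m, l ≠ m → C m ≠ 0 → N l * a ≤ h l * |C m|) (h2 : ∀ l m, l ≠ m → h l * |C m| ≤ A)
    (h4 : ∑ l, h l * |C l| ≤ 2 * A) : (∑ l, N l) * a ≤ (d - 1) * A := by
  classical
  have hd' : (3 : ℝ) ≤ d := by exact_mod_cast hd
  set S : Finset (Fin (d + 1)) := univ.filter fun l => C l ≠ 0 with hS
  have hmem : ∀ l, l ∈ S ↔ C l ≠ 0 := fun l => by simp [hS]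
  obtain ⟨p, q, r, hpq, hpr, hqr, hp, hq, hr⟩ := h3
  have hA : 0 ≤ A := le_trans (mul_nonneg (hh p) (abs_nonneg (C q))) (h2 p q hpq)
  have hcard : 3 ≤ S.card := by
    have hsub : ({p, q, r} : Finset (Fin (d + 1))) ⊆ S := by
      intro x hx
      simp only [mem_insert, mem_singleton] at hx
      rw [hmem]
      rcases hx with rfl | rfl | rfl <;> assumption
    have := card_le_card hsub
    rwa [card_eq_three.2 ⟨p, q, r, hpq, hpr, hqr, rfl⟩] at this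
  have hne : S.Nonempty := card_pos.1 (by omega)
  obtain ⟨i0, hi0, hmin0⟩ := exists_min_image S (fun l => |C l|) hne
  have hne' : (S.erase i0).Nonempty := card_pos.1 (by rw [card_erase_of_mem hi0]; omega)
  obtain ⟨i1, hi1, hmin1⟩ := exists_min_image (S.erase i0) (fun l => |C l|) hne'
  have hi1S := mem_of_mem_erase hi1
  have hi10 := ne_of_mem_erase hi1
  have hC0 := (hmem i0).1 hi0
  have hC1 := (hmem i1).1 hi1S
  have hμ : 0 < |C i0| := abs_pos.2 hC0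
  have hμν : |C i0| ≤ |C i1| := hmin0 i1 hi1S
  -- the three parts of the sum
  have hsplit : ∀ F : Fin (d + 1) → ℝ, ∑ l, F l = F i0 + ∑ l ∈ S.erase i0, F l + ∑ l ∈ Sᶜ, F l := by
    intro F
    rw [← sum_add_sum_compl S F, ← add_sum_erase S F hi0]
  have hcS : ∀ l ∈ Sᶜ, C l = 0 := fun l hl => by
    by_contra hcon
    exact (mem_compl.1 hl) ((hmem l).2 hcon)
  have h4' : h i0 * |C i0| + ∑ l ∈ S.erase i0, h l * |C l| ≤ 2 * A := by
    rw [hsplit] at h4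
    have : (0 : ℝ) ≤ ∑ l ∈ Sᶜ, h l * |C l| := sum_nonneg fun l _ => mul_nonneg (hh l) (abs_nonneg _)
    linarith
  have hout0 : ∀ l ∈ Sᶜ, l ≠ i0 := fun l hl he => (mem_compl.1 hl) (he ▸ hi0)
  have hcardS : (Sᶜ.card : ℝ) = d + 1 - S.card := by
    rw [card_compl, Fintype.card_fin, Nat.cast_sub (by simpa using card_le_univ S)]
    push_cast
    ring
  rw [hsplit, add_mul, add_mul]
  rcases Nat.lt_or_ge 3 S.card with h5 | h5
  · -- at least four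
    have hout : (∑ l ∈ Sᶜ, N l) * a ≤ (d + 1 - S.card) * A := by
      rw [sum_mul, ← hcardS, ← nsmul_eq_mul]
      exact sum_le_card_nsmul _ _ _ fun l hl => (h1 l i0 (hout0 l hl) hC0).trans (h2 l i0 (hout0 l hl))
    have hin : (∑ l ∈ S.erase i0, N l) * a ≤ (∑ l ∈ S.erase i0, h l) * |C i0| := by
      rw [sum_mul, sum_mul]
      exact sum_le_sum fun l hl => h1 l i0 (ne_of_mem_erase hl) hC0
    have hH : (∑ l ∈ S.erase i0, h l) * |C i1| ≤ ∑ l ∈ S.erase i0, h l * |C l| := by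
      rw [sum_mul]
      exact sum_le_sum fun l hl => mul_le_mul_of_nonneg_left (hmin1 l hl) (hh l)
    have h6 := two_A (hh i0) hA hμ hμν (by linarith) (h2 i0 i1 hi10.symm) (H := ∑ l ∈ S.erase i0, h l)
    have h7 := h1 i0 i1 hi10.symm hC1
    have h8 : (4 : ℝ) ≤ S.card := by exact_mod_cast h5
    nlinarith [mul_nonneg hA (sub_nonneg.2 h8)]
  · -- exactly three
    have hc3 : S.card = 3 := le_antisymm h5 hcard
    have hce : (S.erase i0).card = 2 := by rw [card_erase_of_mem hi0, hc3]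
    have hce' : ((S.erase i0).erase i1).card = 1 := by rw [card_erase_of_mem hi1, hce]
    obtain ⟨i2, hi2⟩ := card_eq_one.1 hce'
    have hi2m : i2 ∈ (S.erase i0).erase i1 := by rw [hi2]; exact mem_singleton_self _
    have hi2e := mem_of_mem_erase hi2m
    have hi21 := ne_of_mem_erase hi2m
    have hi20 := ne_of_mem_erase hi2e
    have hC2 := (hmem i2).1 (mem_of_mem_erase hi2e)
    have hsum2 : ∀ F : Fin (d + 1) → ℝ, ∑ l ∈ S.erase i0, F l = F i1 + F i2 := by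
      intro F
      rw [← add_sum_erase _ F hi1, hi2, sum_singleton]
    have hz : C i0 + C i1 + C i2 = 0 := by
      rw [hsplit, hsum2, sum_eq_zero hcS] at hsum
      linarith
    have hσ : |C i2| = |C i0| + |C i1| := by
      have h9 : |C i1| ≤ |C i2| := hmin1 i2 hi2e
      have h10 : C i2 = -(C i0 + C i1) := by linarith
      rw [h10, abs_neg] at h9 ⊢
      exact abs_aux hμν hμ h9
    rw [hsum2] at h4' ⊢
    have hout : (∑ l ∈ Sᶜ, N l) * a ≤ (d - 2) * (A / 2) := by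
      have hcc : (Sᶜ.card : ℝ) = d - 2 := by
        rw [hcardS, hc3]
        push_cast
        ring
      rw [sum_mul, ← hcc, ← nsmul_eq_mul]
      refine sum_le_card_nsmul _ _ _ fun l hl => ?_
      have h11 := h1 l i0 (hout0 l hl) hC0
      have h12 : l ≠ i2 := fun he => (mem_compl.1 hl) (he ▸ mem_of_mem_erase hi2e)
      have h13 := h2 l i2 h12
      rw [hσ] at h13
      nlinarith [mul_nonneg (hh l) (sub_nonneg.2 hμν)]
    rw [hσ] at h4'
    have h14 := h2 i0 i2 hi20.symm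
    have h15 := h2 i1 i2 hi21.symm
    rw [hσ] at h14 h15
    have h16 := three (h2 := h i2) (hh i0) hA hμ hμν (by linarith) h14 h15
    have h17 := h1 i0 i1 hi10.symm hC1
    have h18 := h1 i1 i0 hi10 hC0
    have h19 := h1 i2 i0 hi20 hC0
    nlinarith [mul_nonneg hA (sub_nonneg.2 hd')]

end H2P9
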